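import Pool.Agent.helper70.FI.SpecQ1

set_option autoImplicit false

namespace Pool.Agent.FI

open Pool.Agent.helper58.DC Pool.Agent.DI Pool.Agent.GR Pool.Agent.OB

theorem QIN_conj {G : Type} [Group G] (p : ℕ) (L : Subgroup G) {l : G} (hl : l ∈ L) (x : G) :
    (l * x * l⁻¹ ∈ L ∧ PReg p (l * x * l⁻¹)) ↔ (x ∈ L ∧ PReg p x) := by
  have h1 : orderOf (l * x * l⁻¹) = orderOf x := (MulAut.conj l).orderOf_eq x
  have h2 : l * x * l⁻¹ ∈ L ↔ x ∈ L := by
    constructor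
    · intro h
      have h3 := L.mul_mem (L.mul_mem (L.inv_mem hl) h) hl
      have h4 : l⁻¹ * (l * x * l⁻¹) * l = x := by group
      rwa [h4] at h3
    · intro h
      exact L.mul_mem (L.mul_mem hl h) (L.inv_mem hl)
  unfold PReg
  rw [h1, h2]

theorem QIN (hB2 : B2_stmt) (hC3 : C3_stmt) : QIN_stmt := by
  intro p G _ _ L ψ hψ
  classical
  obtain ⟨-, hcf, hint, hsup, -⟩ := (hB2 G L).2 ψ hψ
  have hL : (Nat.card L : ℂ) ≠ 0 := by
    rw [Nat.cast_ne_zero]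
    exact Nat.card_pos.ne'
  have h1 := (hC3 G).1 L ψ hψ (fun v => if v ∈ L ∧ PReg p v then ψ v⁻¹ else 0) (by
    intro l hl x
    show (if l * x * l⁻¹ ∈ L ∧ PReg p (l * x * l⁻¹) then ψ (l * x * l⁻¹)⁻¹ else 0) = if x ∈ L ∧ PReg p x then ψ x⁻¹ else 0
    have h2 := QIN_conj p L hl x
    by_cases hx : x ∈ L ∧ PReg p x
    · rw [if_pos hx, if_pos (h2.2 hx)]
      have h3 : (l * x * l⁻¹)⁻¹ = l * x⁻¹ * l⁻¹ := by group
      rw [h3, hcf _ l hl]
    · rw [if_neg hx, if_neg (fun h => hx (h2.1 h))]) (by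
    intro x
    show IsIntegral ℤ (if x ∈ L ∧ PReg p x then ψ x⁻¹ else 0)
    split_ifs
    · exact hint _
    · exact isIntegral_zero)
  have e1 : (Nat.card L : ℂ) * EE p L ψ ψ / ψ 1 = cc ψ (fun v => if v ∈ L ∧ PReg p v then ψ v⁻¹ else 0) := by
    unfold EE cc
    rw [mul_div_cancel₀ _ hL]
    congr 1
    apply finsum_congr
    intro v
    rw [finsum_eq_if]
    by_cases hv : v ∈ L ∧ PReg p v
    · have hv' : v ∈ {v : G | v ∈ L ∧ PReg p v} := hv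
      rw [if_pos hv']
      show ψ v * ψ v⁻¹ = (if v ∈ L ∧ PReg p v then ψ v⁻¹ else 0) * ψ v
      rw [if_pos hv, mul_comm]
    · have hv' : ¬ v ∈ {v : G | v ∈ L ∧ PReg p v} := hv
      rw [if_neg hv']
      show 0 = (if v ∈ L ∧ PReg p v then ψ v⁻¹ else 0) * ψ v
      rw [if_neg hv, zero_mul]
  rw [e1]
  exact h1

end Pool.Agent.FI
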